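import Pool.Agent.Y669.TA.Oml

/-! One finite presentation with an unsolvable word problem in every class between the subspace
lattices of Euclidean spaces and all orthomodular lattices. Stronger form of `Unsolvable`. -/

set_option autoImplicit false

namespace Pool.Agent.Results.MP_6fdd0d_al.EveryClass

open Pool.Agent.H662R2.SM
open Pool.Agent.Results.MP_6fdd0d_al.Unsolvable

/-- The relations `R` imply `t = 0` in all members of the class `C` of orthomodular lattices. -/
def ImpliedIn (C : ∀ L : Type, OML L → Prop) {n : ℕ} (R : List (Term n × Term n)) (t : Term n) :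
    Prop :=
  ∀ (L : Type) (i : OML L), C L i → ∀ v : Fin n → L, Satisfies R v → t.eval v = ⊥

/-- In the lattice of all subspaces of some finite-dimensional Euclidean space, some assignment
satisfies the relations `R` and gives `t` a value different from `0`. -/
def RefutedEuclidean {n : ℕ} (R : List (Term n × Term n)) (t : Term n) : Prop :=
  ∃ (ι : Type) (_ : Fintype ι) (v : Fin n → Submodule ℝ (EuclideanSpace ℝ ι)),
    Satisfies R v ∧ t.eval v ≠ ⊥

/-- The class `C` contains the lattices of all subspaces of the finite-dimensional Euclidean
spaces. -/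
def ContainsEuclidean (C : ∀ L : Type, OML L → Prop) : Prop :=
  ∀ (ι : Type) [Fintype ι],
    C (Submodule ℝ (EuclideanSpace ℝ ι)) (subOML (EuclideanSpace ℝ ι))

/-- There is one finite presentation `⟨x_0, ..., x_{n-1} | R⟩` such that
(1) no algorithm gives the answer `true` for all terms `t` which are `0` in the presented
orthomodular lattice and the answer `false` for all terms `t` which are refuted in a subspace
lattice of a finite-dimensional Euclidean space;
(2) for every class `C` of orthomodular lattices that contains these subspace lattices (for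
instance: only these; the modular ortholattices; all orthomodular lattices) no algorithm decides,
given a term `t`, whether `R` implies `t = 0` in `C`;
(3) in particular the word problem of the orthomodular lattice presented by `R` is unsolvable. -/
theorem result : ∃ (n : ℕ) (R : List (Term n × Term n)),
    (¬ ∃ f : List ℕ → Bool, Computable f ∧
      (∀ t : Term n, mk R t = mk R .bot → f t.code = true) ∧
      ∀ t : Term n, RefutedEuclidean R t → f t.code = false) ∧
    (∀ C : (∀ L : Type, OML L → Prop), ContainsEuclidean C →
      ¬ ∃ f : List ℕ → Bool, Computable f ∧ ∀ t : Term n, f t.code = true ↔ ImpliedIn C R t) ∧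
    ¬ SolvableWordProblem n R := by
  obtain ⟨N, R, t, ht, h0, h1⟩ := Pool.Agent.Y669.TA.Oml.exists_pres
  have key : ¬ ∃ f : List ℕ → Bool, Computable f ∧
      (∀ t : Term N, mk R t = mk R .bot → f t.code = true) ∧
      ∀ t : Term N, RefutedEuclidean R t → f t.code = false := by
    rintro ⟨f, hf, hf0, hf1⟩
    refine insep (fun n => f (t n).code) (hf.comp ht) (fun n hn => hf0 _ ?_) (fun n hn => hf1 _ ?_)
    · rw [mk_eq]
      exact fun L _ v hv => h0 n hn L v hv
    · exact h1 n hn
  refine ⟨N, R, key, ?_, ?_⟩
  · rintro C hC ⟨f, hf, hfC⟩
    refine key ⟨f, hf, fun s hs => ?_, ?_⟩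
    · rw [hfC]
      intro L i _ v hv
      exact (mk_eq.1 hs) L v hv
    · rintro s ⟨ι, i1, v, hv, hne⟩
      rw [Bool.eq_false_iff]
      intro h
      rw [hfC] at h
      exact hne (h _ _ (hC ι) v hv)
  · rintro ⟨f, hf, hfv⟩
    refine key ⟨fun l => f (l, (Term.bot : Term N).code),
      hf.comp (Computable.id.pair (Computable.const _)), fun s hs => (hfv _ _).2 hs, ?_⟩
    rintro s ⟨ι, i1, v, hv, hne⟩
    rw [Bool.eq_false_iff]
    intro h
    rw [hfv, mk_eq] at h
    exact hne (h _ v hv)

end Pool.Agent.Results.MP_6fdd0d_al.EveryClass
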